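import Mathlib
import Pool.Agent.H.MP_7e2005_co.Defs
import Pool.Agent.H.MP_7e2005_co.Main

open Pool.Agent.H.MP_7e2005_co

/-- Complete answer to Q1: for every `s ≥ 2`, the positive integers `k` such that
`φ_±(Z_3 × Z_{3k}, [0,s]) = 2`.
* If `s = 3p`: all `k ≤ 2p² - p`, and the `k` with `2p² - p < k ≤ 2p²` that are even
  (for `p` even), respectively congruent to `2` modulo `4` (for `p` odd).
* If `s = 3p + 1`: all `k ≤ 2p² + 2p`.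
* If `s = 3p + 2`: all `k ≤ 2p² + 2p + 1`. -/
theorem Pool.Agent.Results.MP_7e2005_co.AnswerQ1.result (s k : ℕ) (_hs : 2 ≤ s) (hk : 1 ≤ k) :
    phi (ZMod 3 × ZMod (3 * k)) s = 2 ↔
      (∃ p, s = 3 * p ∧ (k + p ≤ 2 * p ^ 2 ∨ (k ≤ 2 * p ^ 2 ∧ 2 ∣ k ∧ (Odd p → ¬ 4 ∣ k)))) ∨
      (∃ p, s = 3 * p + 1 ∧ k ≤ 2 * p ^ 2 + 2 * p) ∨
      (∃ p, s = 3 * p + 2 ∧ k ≤ 2 * p ^ 2 + 2 * p + 1) := by
  rw [phi_eq_two_iff 3 k (by norm_num) s]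
  exact main3 s k hk
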