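import Mathlib
import Pool.Agent.H.MP_7e2005_co.Defs
import Pool.Agent.H.MP_7e2005_co.Main

open Pool.Agent.H.MP_7e2005_co

/-- Complete answer to Q2: for every `s ≥ 2`, the positive integers `l` such that
`φ_±(Z_4 × Z_{4l}, [0,s]) = 2`.
* If `s = 4q` or `s = 4q + 1`: all `l ≤ 2q² - q`, and the `l` with `2q² - q < l ≤ 2q²` that are
  even (for `q` even), respectively congruent to `2` modulo `4` (for `q` odd).
* If `s = 4q + 2` or `s = 4q + 3`: all `l ≤ 2q² + 2q`. -/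
theorem Pool.Agent.Results.MP_7e2005_co.AnswerQ2.result (s l : ℕ) (_hs : 2 ≤ s) (hl : 1 ≤ l) :
    phi (ZMod 4 × ZMod (4 * l)) s = 2 ↔
      (∃ q, (s = 4 * q ∨ s = 4 * q + 1) ∧
        (l + q ≤ 2 * q ^ 2 ∨ (l ≤ 2 * q ^ 2 ∧ 2 ∣ l ∧ (Odd q → ¬ 4 ∣ l)))) ∨
      (∃ q, (s = 4 * q + 2 ∨ s = 4 * q + 3) ∧ l ≤ 2 * q ^ 2 + 2 * q) := by
  rw [phi_eq_two_iff 4 l (by norm_num) s]
  exact main4 s l hl
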